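import Mathlib
import Pool.Agent.H456R2.QPDefs
import Pool.Agent.H456R2.QPMain

set_option autoImplicit false

namespace Pool.Agent.Results.MP_216eb3_nt.MinimalHeight

open Pool.Agent.H456R2.QP

/-- **Minimal heights in the orbits are comparable with the height on the quotient.**
Let `X` be a quasi-projective variety over `Qbar`, `Y` a subset of a projective space (for
instance a quasi-projective variety), `π : X → Y` a regular map, and `G` a group acting on `X`
such that the fibres of `π` are the orbits of `G`, as is the case for a geometric quotient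
`π : X → Y = X // G`. Let `hX` and `hY` be ample heights on `X` and on `Y`. Then
`hY (π P) ≍ inf_{g ∈ G} hX (g P)` on `X`. -/
theorem result {n m : ℕ} (X : Set (PSpace n)) (hXqp : IsQuasiProjective X) (Y : Set (PSpace m))
    (G : Type*) [Group G] [MulAction G X] (π : X → Y)
    (hπ : IsRegular X (fun P => (π P : PSpace m)))
    (hfib : ∀ P Q : X, π P = π Q ↔ Q ∈ MulAction.orbit G P)
    (hX : X → ℝ) (hhX : IsAmpleHeight X hX) (hY : Y → ℝ) (hhY : IsAmpleHeight Y hY) :
    ∃ c₁ c₂ c₃ c₄ : ℝ, 0 < c₁ ∧ 0 < c₂ ∧ ∀ P : X,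
      BddBelow (Set.range fun g : G => hX (g • P)) ∧
      c₁ * hY (π P) - c₃ ≤ ⨅ g : G, hX (g • P) ∧
      ⨅ g : G, hX (g • P) ≤ c₂ * hY (π P) + c₄ := by
  obtain ⟨A, hA, hA'⟩ := ample_comparable X hX hhX
  obtain ⟨B, hB, hB'⟩ := ample_comparable Y hY hhY
  obtain ⟨E, hE, hE'⟩ := ht_le X _ hπ
  obtain ⟨S, hS, hS'⟩ := exists_small X hXqp _ hπ
  have hbdd : ∀ P : X, BddBelow (Set.range fun g : G => hX (g • P)) := by
    intro P
    refine ⟨-A, ?_⟩
    rintro _ ⟨g, rfl⟩
    exact (hA' _).2.2.1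
  have hB0 : 0 < B * (E + 1) * A := by positivity
  refine ⟨1 / (B * (E + 1) * A), A * (S + 1) * B,
    (B * (1 + (E + 1) * (1 + A * (1 + A)))) / (B * (E + 1) * A),
    A * (1 + (S + 1) * (1 + B * (1 + B))), by positivity, by positivity, fun P =>
      ⟨hbdd P, ?_, ?_⟩⟩
  · apply le_ciInf
    intro g
    have hπg : π P = π (g • P) := (hfib P (g • P)).mpr ⟨g, rfl⟩
    have e1 := (hB' (π P)).1
    have e2 := hE' (g • P)
    have e3 := (hA' (g • P)).2.2.2
    have e4 := ht_nonneg (g • P).1
    rw [← hπg] at e2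
    have e5 : ht (π P).1 ≤ (E + 1) * (1 + A * (1 + A + hX (g • P))) := by
      refine e2.trans ?_
      refine (mul_le_mul_of_nonneg_left (add_le_add le_rfl e3) hE).trans ?_
      refine mul_le_mul_of_nonneg_right (by linarith) ?_
      have := e4.trans e3
      linarith
    have e6 : hY (π P) ≤ B * (1 + (E + 1) * (1 + A * (1 + A + hX (g • P)))) :=
      e1.trans (mul_le_mul_of_nonneg_left (add_le_add le_rfl e5) hB.le)
    rw [one_div, inv_mul_eq_div, ← sub_div, div_le_iff₀ hB0]
    calc hY (π P) - B * (1 + (E + 1) * (1 + A * (1 + A)))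
        ≤ B * (1 + (E + 1) * (1 + A * (1 + A + hX (g • P)))) -
          B * (1 + (E + 1) * (1 + A * (1 + A))) := by linarith
      _ = _ := by ring
  · obtain ⟨Q, hQ1, hQ2⟩ := hS' P
    have hQ3 : π P = π Q := Subtype.ext hQ1.symm
    obtain ⟨g, hg⟩ := (hfib P Q).mp hQ3
    refine (ciInf_le (hbdd P) g).trans ?_
    have hg' : g • P = Q := hg
    rw [hg']
    have e1 := (hA' Q).1
    have e3 := (hB' (π P)).2.2.2
    have e4 := ht_nonneg (π P).1
    have e5 : ht Q.1 ≤ (S + 1) * (1 + B * (1 + B + hY (π P))) := by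
      refine hQ2.trans ?_
      refine (mul_le_mul_of_nonneg_left (add_le_add le_rfl e3) hS).trans ?_
      refine mul_le_mul_of_nonneg_right (by linarith) ?_
      have := e4.trans e3
      linarith
    have e6 : hX Q ≤ A * (1 + (S + 1) * (1 + B * (1 + B + hY (π P)))) :=
      e1.trans (mul_le_mul_of_nonneg_left (add_le_add le_rfl e5) hA.le)
    refine e6.trans (le_of_eq (by ring))

end Pool.Agent.Results.MP_216eb3_nt.MinimalHeight
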